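import Pool.Agent.Q27.LT.Machine

/-!
# Project LT (helper27), job ROUNDS: every sweep is a list of rounds over a larger alphabet
-/

set_option autoImplicit false

namespace Pool.Agent.Q102.LT.ROUNDS

open Pool.Agent.Q27.LT

/-! ### rounds which map letters -/

lemma lrun_map {A B Q : Type} (f : Q → A → Q) (o : Q → A → B) (g : A → B) (h : ∀ q a, o q a = g a)
    (q : Q) (x : List A) : lrun f o q x = x.map g := by
  induction x generalizing q with
  | nil => rfl
  | cons a l ih => simp [lrun, ih, h]

lemma rrun_map {A B Q : Type} (f : Q → A → Q) (o : Q → A → B) (g : A → B) (h : ∀ q a, o q a = g a)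
    (q : Q) (x : List A) : (rrun f o q x).2 = x.map g := by
  induction x with
  | nil => rfl
  | cons a l ih => simp [rrun, ih, h]

lemma rrun_copy {A Q : Type} (f : Q → A → Q) (q : Q) (x : List A) :
    (rrun f (fun _ w => w) q x).2 = x := by
  rw [rrun_map f _ (fun w => w) (fun _ _ => rfl), List.map_id']

lemma lrun_copy {A Q : Type} (f : Q → A → Q) (q : Q) (x : List A) :
    lrun f (fun _ w => w) q x = x := by
  rw [lrun_map f _ (fun w => w) (fun _ _ => rfl), List.map_id']

/-- the round which applies `g` to all letters -/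
def mapR {W : Type} (g : W → W) : Round W where
  Q := Unit
  finQ := inferInstance
  q0 := ()
  f := fun _ _ => ()
  o := fun _ w => g w
  t := fun _ => .keep
  Q' := Unit
  finQ' := inferInstance
  q0' := ()
  f' := fun _ _ => ()
  o' := fun _ w => w

lemma mapR_run {W : Type} (g : W → W) (x : List W) : (mapR g).run x = x.map g := by
  unfold Round.run
  show (rrun (fun _ _ => ()) (fun _ w => w) () (lrun (fun _ _ => ()) (fun _ w => g w) () x)).2 = _
  rw [rrun_copy, lrun_map _ _ g (fun _ _ => rfl)]

/-! ### lifting a round along an injection -/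

/-- the action on a larger alphabet -/
def actMap {W₁ W : Type} (e : W₁ → W) : Act W₁ → Act W
  | .keep => .keep
  | .push a => .push (e a)
  | .pop => .pop

lemma actMap_run {W₁ W : Type} (e : W₁ → W) (a : Act W₁) (x : List W₁) :
    (actMap e a).run (x.map e) = (a.run x).map e := by
  cases a with
  | keep => rfl
  | push a => simp [actMap, Act.run]
  | pop => simp [actMap, Act.run, List.map_dropLast]

/-- lift a letter function -/
noncomputable def lf {W₁ W Q : Type} (e : W₁ → W) (f : Q → W₁ → Q) (q : Q) (w : W) : Q :=
  match Function.partialInv e w with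
  | some u => f q u
  | none => q

/-- lift an output function -/
noncomputable def lo {W₁ W Q : Type} (e : W₁ → W) (o : Q → W₁ → W₁) (q : Q) (w : W) : W :=
  match Function.partialInv e w with
  | some u => e (o q u)
  | none => w

lemma lf_e {W₁ W Q : Type} {e : W₁ → W} (he : Function.Injective e) (f : Q → W₁ → Q) (q : Q) (u : W₁) :
    lf e f q (e u) = f q u := by
  unfold lf; rw [Function.partialInv_left he]

lemma lo_e {W₁ W Q : Type} {e : W₁ → W} (he : Function.Injective e) (o : Q → W₁ → W₁) (q : Q) (u : W₁) :
    lo e o q (e u) = e (o q u) := by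
  unfold lo; rw [Function.partialInv_left he]

lemma foldl_lift {W₁ W Q : Type} {e : W₁ → W} (he : Function.Injective e) (f : Q → W₁ → Q) (q : Q)
    (x : List W₁) : (x.map e).foldl (lf e f) q = x.foldl f q := by
  induction x generalizing q with
  | nil => rfl
  | cons a l ih => rw [List.map_cons, List.foldl_cons, List.foldl_cons, lf_e he, ih]

lemma lrun_lift {W₁ W Q : Type} {e : W₁ → W} (he : Function.Injective e) (f : Q → W₁ → Q)
    (o : Q → W₁ → W₁) (q : Q) (x : List W₁) :
    lrun (lf e f) (lo e o) q (x.map e) = (lrun f o q x).map e := by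
  induction x generalizing q with
  | nil => rfl
  | cons a l ih => rw [List.map_cons, lrun, lrun, lf_e he, lo_e he, ih, List.map_cons]

lemma rrun_lift {W₁ W Q : Type} {e : W₁ → W} (he : Function.Injective e) (f : Q → W₁ → Q)
    (o : Q → W₁ → W₁) (q : Q) (x : List W₁) :
    rrun (lf e f) (lo e o) q (x.map e) = ((rrun f o q x).1, (rrun f o q x).2.map e) := by
  induction x with
  | nil => rfl
  | cons a l ih => rw [List.map_cons, rrun, rrun, ih, lf_e he, lo_e he, List.map_cons]

/-- the lifted round -/
noncomputable def lift {W₁ W : Type} (e : W₁ → W) (R : Round W₁) : Round W where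
  Q := R.Q
  finQ := R.finQ
  q0 := R.q0
  f := lf e R.f
  o := lo e R.o
  t := fun q => actMap e (R.t q)
  Q' := R.Q'
  finQ' := R.finQ'
  q0' := R.q0'
  f' := lf e R.f'
  o' := lo e R.o'

lemma lift_run {W₁ W : Type} {e : W₁ → W} (he : Function.Injective e) (R : Round W₁) (x : List W₁) :
    (lift e R).run (x.map e) = (R.run x).map e := by
  unfold Round.run
  show (rrun (lf e R.f') (lo e R.o') R.q0' ((actMap e (R.t ((x.map e).foldl (lf e R.f) R.q0))).run
    (lrun (lf e R.f) (lo e R.o) R.q0 (x.map e)))).2 = _
  rw [foldl_lift he, lrun_lift he, actMap_run, rrun_lift he]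

lemma runs_lift {W₁ W : Type} {e : W₁ → W} (he : Function.Injective e) (l : List (Round W₁))
    (x : List W₁) : runs (l.map (lift e)) (x.map e) = (runs l x).map e := by
  unfold runs
  induction l generalizing x with
  | nil => rfl
  | cons R l ih => rw [List.map_cons, List.foldl_cons, List.foldl_cons, lift_run he, ih]

lemma runs_append {W : Type} (l l' : List (Round W)) (x : List W) :
    runs (l ++ l') x = runs l' (runs l x) := by
  unfold runs; rw [List.foldl_append]

/-! ### the induction -/

/-- the claim for one function -/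
def Good {A B : Type} (F : List A → List B) : Prop :=
  ∃ (W : Type) (_ : Finite W) (i : A → W) (j : B → W) (l : List (Round W)),
    Function.Injective i ∧ Function.Injective j ∧ ∀ x : List A, runs l (x.map i) = (F x).map j

lemma good_comp {A B C : Type} {F : List A → List B} {G : List B → List C} (hF : Good F)
    (hG : Good G) : Good (fun x => G (F x)) := by
  obtain ⟨W₁, hW₁, i₁, j₁, l₁, hi₁, hj₁, h₁⟩ := hF
  obtain ⟨W₂, hW₂, i₂, j₂, l₂, hi₂, hj₂, h₂⟩ := hG
  let g : W₁ ⊕ W₂ → W₁ ⊕ W₂ := fun w =>
    match w with
    | Sum.inl u => (match Function.partialInv j₁ u with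
      | some b => Sum.inr (i₂ b)
      | none => Sum.inl u)
    | Sum.inr v => Sum.inr v
  refine ⟨W₁ ⊕ W₂, inferInstance, Sum.inl ∘ i₁, Sum.inr ∘ j₂,
    l₁.map (lift Sum.inl) ++ mapR g :: l₂.map (lift Sum.inr), Sum.inl_injective.comp hi₁,
    Sum.inr_injective.comp hj₂, fun x => ?_⟩
  rw [runs_append]
  have e1 : x.map (Sum.inl ∘ i₁ : A → W₁ ⊕ W₂) = (x.map i₁).map Sum.inl := by rw [List.map_map]
  rw [e1, runs_lift Sum.inl_injective, h₁]
  have e2 : ∀ (l : List (Round (W₁ ⊕ W₂))) (y : List (W₁ ⊕ W₂)), runs (mapR g :: l) y =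
      runs l (y.map g) := by
    intro l y
    unfold runs
    rw [List.foldl_cons, mapR_run]
  rw [e2]
  have e3 : (((F x).map j₁).map (Sum.inl : W₁ → W₁ ⊕ W₂)).map g = ((F x).map i₂).map Sum.inr := by
    rw [List.map_map, List.map_map, List.map_map]
    refine List.map_congr_left fun b _ => ?_
    show (match Function.partialInv j₁ (j₁ b) with
      | some b => Sum.inr (i₂ b)
      | none => Sum.inl (j₁ b)) = Sum.inr (i₂ b)
    rw [Function.partialInv_left hj₁]
  rw [e3, runs_lift Sum.inr_injective, h₂, List.map_map]

lemma good_left {A B Q : Type} [Finite A] [Finite B] [Finite Q] (f : Q → A → Q) (o : Q → A → B)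
    (q : Q) : Good (lrun f o q) := by
  let F : Q → A ⊕ B → Q := fun q w => match w with
    | Sum.inl a => f q a
    | Sum.inr _ => q
  let O : Q → A ⊕ B → A ⊕ B := fun q w => match w with
    | Sum.inl a => Sum.inr (o q a)
    | Sum.inr b => Sum.inr b
  let R : Round (A ⊕ B) := {
    Q := Q, finQ := inferInstance, q0 := q, f := F, o := O, t := fun _ => .keep
    Q' := Unit, finQ' := inferInstance, q0' := (), f' := fun _ _ => (), o' := fun _ w => w }
  refine ⟨A ⊕ B, inferInstance, Sum.inl, Sum.inr, [R], Sum.inl_injective, Sum.inr_injective,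
    fun x => ?_⟩
  show (rrun (fun _ _ => ()) (fun _ w => w) () (lrun F O q (x.map Sum.inl))).2 = _
  rw [rrun_copy]
  induction x generalizing q with
  | nil => rfl
  | cons a l ih =>
    rw [List.map_cons, lrun, lrun, List.map_cons]
    have := ih (f q a)
    exact congrArg _ this

lemma good_right {A B Q : Type} [Finite A] [Finite B] [Finite Q] (f : Q → A → Q) (o : Q → A → B)
    (q : Q) : Good (fun x => (rrun f o q x).2) := by
  let F : Q → A ⊕ B → Q := fun q w => match w with
    | Sum.inl a => f q a
    | Sum.inr _ => q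
  let O : Q → A ⊕ B → A ⊕ B := fun q w => match w with
    | Sum.inl a => Sum.inr (o q a)
    | Sum.inr b => Sum.inr b
  let R : Round (A ⊕ B) := {
    Q := Unit, finQ := inferInstance, q0 := (), f := fun _ _ => (), o := fun _ w => w
    t := fun _ => .keep
    Q' := Q, finQ' := inferInstance, q0' := q, f' := F, o' := O }
  refine ⟨A ⊕ B, inferInstance, Sum.inl, Sum.inr, [R], Sum.inl_injective, Sum.inr_injective,
    fun x => ?_⟩
  show (rrun F O q (lrun (fun _ _ => ()) (fun _ w => w) () (x.map Sum.inl))).2 = _
  rw [lrun_copy]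
  have key : rrun F O q (x.map Sum.inl) = ((rrun f o q x).1, (rrun f o q x).2.map Sum.inr) := by
    induction x with
    | nil => rfl
    | cons a l ih =>
      rw [List.map_cons, rrun, rrun, ih, List.map_cons]
  rw [key]

lemma good_tail {A Q : Type} [Finite A] [Finite Q] (f : Q → A → Q) (q : Q) (t : Q → Act A) :
    Good (tailop f q t) := by
  let R : Round A := {
    Q := Q, finQ := inferInstance, q0 := q, f := f, o := fun _ w => w
    t := t
    Q' := Unit, finQ' := inferInstance, q0' := (), f' := fun _ _ => (), o' := fun _ w => w }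
  refine ⟨A, inferInstance, id, id, [R], Function.injective_id, Function.injective_id, fun x => ?_⟩
  show (rrun (fun _ _ => ()) (fun _ w => w) () ((t ((x.map id).foldl f q)).run
    (lrun f (fun _ w => w) q (x.map id)))).2 = _
  rw [rrun_copy, lrun_copy]
  simp only [List.map_id]
  rfl

lemma good_lp {A B : Type} {F : List A → List B} (h : LP F) (hA : Finite A) (hB : Finite B) :
    Good F := by
  induction h with
  | left f o q => exact good_left f o q
  | right f o q => exact good_right f o q
  | comp _ _ ih1 ih2 => exact good_comp (ih1 hA inferInstance) (ih2 inferInstance hB)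

lemma good_sweep {A B : Type} {F : List A → List B} (h : Sweep F) (hA : Finite A) (hB : Finite B) :
    Good F := by
  induction h with
  | lp h => exact good_lp h hA hB
  | tail f q t => exact good_tail f q t
  | comp _ _ ih1 ih2 => exact good_comp (ih1 hA inferInstance) (ih2 inferInstance hB)

theorem s_rounds : S_rounds := fun _ _ hA hB _ h => good_sweep h hA hB

end Pool.Agent.Q102.LT.ROUNDS
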